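import Pool.Agent.H608R5.KL.Stm

/-!
Piece K3 of project KL (helper608): the macroscopic inequality.
-/

set_option autoImplicit false

namespace Pool.Agent.TH863.KL

open Pool.Agent.H608R5.KL Finset

private theorem K3_core (m a0 a1 a2 a3 b0 b1 b2 b3 : ℝ) (hm : 2 ≤ m) :
    m * (((a0 - b0) ^ 2 + (a0 - b3) ^ 2) + ((a1 - b1) ^ 2 + (a1 - b0) ^ 2)
        + ((a2 - b2) ^ 2 + (a2 - b1) ^ 2) + ((a3 - b3) ^ 2 + (a3 - b2) ^ 2)) ≤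
      (2 * m ^ 2 * (a0 - b0) ^ 2 + (m ^ 2 - m) * (a0 - b3) ^ 2 - (m ^ 2 / 2 - m) * (a0 - b1) ^ 2)
      + (2 * m ^ 2 * (a1 - b1) ^ 2 + (m ^ 2 - m) * (a1 - b0) ^ 2
        - (m ^ 2 / 2 - m) * (a1 - b2) ^ 2)
      + (2 * m ^ 2 * (a2 - b2) ^ 2 + (m ^ 2 - m) * (a2 - b1) ^ 2
        - (m ^ 2 / 2 - m) * (a2 - b3) ^ 2)
      + (2 * m ^ 2 * (a3 - b3) ^ 2 + (m ^ 2 - m) * (a3 - b2) ^ 2
        - (m ^ 2 / 2 - m) * (a3 - b0) ^ 2) := by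
  have hc : 0 ≤ m ^ 2 / 2 - m := by nlinarith
  have hm0 : 0 ≤ m := by linarith
  set s : ℝ := (a0 + a1 + a2 + a3) - (b0 + b1 + b2 + b3) with hs
  have key :
      ((2 * m ^ 2 * (a0 - b0) ^ 2 + (m ^ 2 - m) * (a0 - b3) ^ 2
        - (m ^ 2 / 2 - m) * (a0 - b1) ^ 2)
      + (2 * m ^ 2 * (a1 - b1) ^ 2 + (m ^ 2 - m) * (a1 - b0) ^ 2
        - (m ^ 2 / 2 - m) * (a1 - b2) ^ 2)
      + (2 * m ^ 2 * (a2 - b2) ^ 2 + (m ^ 2 - m) * (a2 - b1) ^ 2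
        - (m ^ 2 / 2 - m) * (a2 - b3) ^ 2)
      + (2 * m ^ 2 * (a3 - b3) ^ 2 + (m ^ 2 - m) * (a3 - b2) ^ 2
        - (m ^ 2 / 2 - m) * (a3 - b0) ^ 2))
      - m * (((a0 - b0) ^ 2 + (a0 - b3) ^ 2) + ((a1 - b1) ^ 2 + (a1 - b0) ^ 2)
        + ((a2 - b2) ^ 2 + (a2 - b1) ^ 2) + ((a3 - b3) ^ 2 + (a3 - b2) ^ 2))
      = (5 / 4 * (m ^ 2 / 2 - m) + 3 / 4 * m) * s ^ 2
        + 3 * m * ((a0 - b0 - s / 4) ^ 2 + (a1 - b1 - s / 4) ^ 2 + (a2 - b2 - s / 4) ^ 2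
          + (a3 - b3 - s / 4) ^ 2)
        + (m ^ 2 / 2 - m) * (4 * ((a0 - b0 - s / 4) + (a2 - b2 - s / 4)) ^ 2
          + ((a0 - b0 - s / 4) + (a1 - b1 - s / 4) - (b0 - a1 + s / 4)) ^ 2
          + ((a1 - b1 - s / 4) + (a2 - b2 - s / 4) - (b1 - a2 + s / 4)) ^ 2
          + ((a2 - b2 - s / 4) + (a3 - b3 - s / 4) - (b2 - a3 + s / 4)) ^ 2
          + ((a3 - b3 - s / 4) + (a0 - b0 - s / 4) - (b3 - a0 + s / 4)) ^ 2) := by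
    rw [hs]; ring
  have h1 : 0 ≤ (5 / 4 * (m ^ 2 / 2 - m) + 3 / 4 * m) * s ^ 2 := by positivity
  have h2 : 0 ≤ 3 * m * ((a0 - b0 - s / 4) ^ 2 + (a1 - b1 - s / 4) ^ 2 + (a2 - b2 - s / 4) ^ 2
          + (a3 - b3 - s / 4) ^ 2) := by positivity
  have h3 : 0 ≤ (m ^ 2 / 2 - m) * (4 * ((a0 - b0 - s / 4) + (a2 - b2 - s / 4)) ^ 2
          + ((a0 - b0 - s / 4) + (a1 - b1 - s / 4) - (b0 - a1 + s / 4)) ^ 2
          + ((a1 - b1 - s / 4) + (a2 - b2 - s / 4) - (b1 - a2 + s / 4)) ^ 2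
          + ((a2 - b2 - s / 4) + (a3 - b3 - s / 4) - (b2 - a3 + s / 4)) ^ 2
          + ((a3 - b3 - s / 4) + (a0 - b0 - s / 4) - (b3 - a0 + s / 4)) ^ 2) :=
    mul_nonneg hc (by positivity)
  linarith

theorem t_K3 : S_K3 := by
  intro m hm α β
  have e : ∀ f : ZMod 4 → ℝ, ∑ a, f a = f 0 + f 1 + f 2 + f 3 := fun f => Fin.sum_univ_four f
  have d0 : (0 : ZMod 4) - 1 = 3 := by decide
  have d1 : (1 : ZMod 4) - 1 = 0 := by decide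
  have d2 : (2 : ZMod 4) - 1 = 1 := by decide
  have d3 : (3 : ZMod 4) - 1 = 2 := by decide
  have u0 : (0 : ZMod 4) + 1 = 1 := by decide
  have u1 : (1 : ZMod 4) + 1 = 2 := by decide
  have u2 : (2 : ZMod 4) + 1 = 3 := by decide
  have u3 : (3 : ZMod 4) + 1 = 0 := by decide
  rw [e, e, d0, d1, d2, d3, u0, u1, u2, u3]
  exact K3_core m (α 0) (α 1) (α 2) (α 3) (β 0) (β 1) (β 2) (β 3) hm

end Pool.Agent.TH863.KL
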